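import Mathlib
import Pool.Agent.Helper98.BM.Core
import Pool.Agent.Helper98.BM.Transfer

/-!
# Everywhere locally soluble curves with empty Brauer-Manin set are adelically dense

Let `m ≥ 2` be even, let `n ≥ 6` be divisible by `m`, let `S` be a finite set of primes, and let
`y ^ m = g_∞(x)` over `ℝ` and `y ^ m = g_p(x)` over `ℚ_p`, `p ∈ S`, be ARBITRARY superelliptic curves, `deg ≤ n`,
which have a point with `y ≠ 0`.  Then there is a superelliptic curve `C : y ^ m = f(x)` over `ℚ`,
`f ∈ ℚ[x]` irreducible of degree `n`, with coefficients as close as one likes to those of `g_∞` and of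
`g_p` for all `p ∈ S`, such that `C` has points over `ℝ` and over `ℚ_p` for all prime numbers `p`, and the
Brauer-Manin set of `C` is EMPTY.  So Stoll's conjecture is true for `C`: there are neither rational
points nor adelic points orthogonal to the Brauer group.

For `m = 2` these are all hyperelliptic curves of the given genus `n / 2 - 1 ≥ 2` (for genus 2: all curves).
So in the space of all hyperelliptic curves of a given genus the curves over `ℚ` which have
points everywhere locally, and for which Stoll's conjecture holds since the Brauer-Manin set is empty,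
satisfy weak approximation: they are dense in the product over `v ∈ S ∪ {∞}` of the sets of all curves over
`ℚ_v` with a point over `ℚ_v`.  (If for one of the given curves, with separable `g_v` of degree `n`, there is
no point over `ℚ_v`, then there is none for the curves over `ℚ` near it either, and their Brauer-Manin sets
are empty for this reason.)  For `m ≥ 4` the genus of `C` is `(m - 1) (n - 2) / 2`.

The local condition is that some value of `g_v` at a point of `ℚ_v` is a nonzero `m`-th power.  If `g_v` is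
separable of degree `n` this means that the smooth projective curve `y ^ m = g_v(x)` has a point over
`ℚ_v` (near any point there are points with finite `x` and `y ≠ 0`); singular equations are also
admitted.

The Brauer-Manin set.  Put `L = ℚ[X]/(f) = ℚ(θ)`.  For `ε ∈ L^*` whose norm is a square the class
`A_ε = Cor_{L/ℚ} (x - θ w, ε)` lies in the Brauer group of `C`.  Its local invariants are computed with
Serre's formula: for `a, b` in an etale algebra `A` over a field `F`, `q_u` the quadratic form `Tr (u z²)` on `A`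
and `s(q)` its Hasse-Witt invariant, `Cor_{A/F} (a, b) = s(q_{ab}) s(q_a) s(q_b) s(q_1) (N a, N b)`.  It is part
of the theorem that the local invariants are well defined, that almost all of them are trivial, and
that rational points are orthogonal to these classes, for all `f`; and for the `f` above no adelic point
is orthogonal to all `A_ε`.  These are the classes used in `EmptyForSolubleTwists` and
`EmptyForSuperellipticTwists` of the library (100% of the everywhere locally soluble twists of ONE curve have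
an empty Brauer-Manin set); the large sieve behind this (helper51 and others) is the main ingredient
here.

Proof.  By weak approximation there are an irreducible `f₁ ∈ ℚ[x]` (Eisenstein for an auxiliary prime) and
`x₀ ∈ ℚ` near the given data, so that `f₁(x₀)` is an `m`-th power in `ℚ_v` for `v ∈ S ∪ {∞}`.  The twist of
`y ^ m = f₁(x)` by a suitable integer `D₀` in the class of `f₁(x₀)` modulo `m`-th powers has a rational
point.  The squarefree integers `k ≤ X` composed of primes modulo which `f₁` has a zero, and `≡ 1` modulo `W`,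
for a suitable multiple `W` of `m² ∏_{p ∈ S} p`, number at least `c X / log X * exp(∑ 1/q)`, the sum over the
primes `q ≤ X` modulo which `f₁` has a zero, and the twists by `D₀ k` are everywhere locally soluble
(library).  By the large sieve (library) only `O((log X) ^ (-δ))` times this number of the hyperelliptic
twists by squarefree `D`, `|D| ≤ X`, have an adelic point orthogonal to all `A_ε`.  Finally the equation is
scaled by the `m`-th power of a rational number which is `v`-adically close to the inverse of an `m`-th root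
of `D₀ k`, for `v ∈ S ∪ {∞}`.  The construction is that of helper47 for curves without sections
(`MP_c1dca2_ag.AdelicDensity`), with `m`-th powers in place of squares.
-/

set_option autoImplicit false

open Polynomial Finset

namespace Pool.Agent.Results.MP_308fa9_nt.AdelicDensity

/-- The homogenisation `F(x, w) = ∑ i, a i * x ^ i * w ^ (n - i)` of `f = ∑ i, a i * x ^ i`, where
`n = deg f`. -/
noncomputable def hom (f : ℚ[X]) {K : Type} [Field K] (x w : K) : K :=
  ∑ i ∈ range (f.natDegree + 1), (f.coeff i : K) * x ^ i * w ^ (f.natDegree - i)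

/-- A point over `K` of the curve `C : y ^ m = F(x, w)`. -/
structure Point (f : ℚ[X]) (m : ℕ) (K : Type) [Field K] where
  /-- the first coordinate -/
  x : K
  /-- the second coordinate -/
  w : K
  /-- the third coordinate -/
  y : K
  ne : x ≠ 0 ∨ w ≠ 0
  eq : y ^ m = hom f x w

/-- An adelic point of the curve `C : y ^ m = F(x, w)`. -/
structure AdelicPoint (f : ℚ[X]) (m : ℕ) where
  /-- the real component -/
  re : Point f m ℝ
  /-- the `p`-adic components -/
  pa : ∀ p : Nat.Primes, Point f m ℚ_[(p : ℕ)]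

section local_

variable {F : Type} [Field F]

open Classical in
/-- The Hilbert symbol `(a, b)` of the field `F`. -/
noncomputable def hilbert (a b : F) : ℤˣ :=
  if ∃ x y z : F, (x ≠ 0 ∨ y ≠ 0 ∨ z ≠ 0) ∧ z ^ 2 = a * x ^ 2 + b * y ^ 2 then 1 else -1

/-- `s` is the Hasse-Witt invariant `∏_{i < j} (a i, a j)` of the quadratic form with the matrix `M`,
computed with an orthogonal basis, `a i ≠ 0` the values of the form at the basis vectors. -/
def IsHasseWitt {n : ℕ} (M : Matrix (Fin n) (Fin n) F) (s : ℤˣ) : Prop :=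
  ∃ (P : Matrix (Fin n) (Fin n) F) (a : Fin n → F), P.det ≠ 0 ∧ (∀ i, a i ≠ 0) ∧
    P.transpose * M * P = Matrix.diagonal a ∧ s = ∏ i, ∏ j ∈ Ioi i, hilbert (a i) (a j)

open Classical in
/-- The Hasse-Witt invariant of the quadratic form with the matrix `M`. -/
noncomputable def hasseWitt {n : ℕ} (M : Matrix (Fin n) (Fin n) F) : ℤˣ :=
  if h : ∃ s, IsHasseWitt M s then Classical.choose h else 1

/-- The matrix of the quadratic form `Tr (u z²)` on `F[X]/(g)` in the basis `1, X, .., X^(n-1)`. -/
noncomputable def traceForm (g u : F[X]) : Matrix (Fin g.natDegree) (Fin g.natDegree) F :=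
  fun i j => Algebra.trace F (AdjoinRoot g) (AdjoinRoot.mk g (u * X ^ ((i : ℕ) + j)))

/-- The local invariant (`±1`) of the corestriction from `A = F[X]/(g)` to the local field `F` of the
quaternion algebra `(a, b)`, by Serre's formula. -/
noncomputable def corestriction (g a b : F[X]) : ℤˣ :=
  hasseWitt (traceForm g (a * b)) * hasseWitt (traceForm g a) * hasseWitt (traceForm g b) *
    hasseWitt (traceForm g 1) *
      hilbert (Algebra.norm F (AdjoinRoot.mk g a)) (Algebra.norm F (AdjoinRoot.mk g b))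

variable [CharZero F]

/-- `f` as a polynomial over `F`. -/
noncomputable abbrev polOver (f : ℚ[X]) (F : Type) [Field F] [CharZero F] : F[X] :=
  f.map (Rat.castHom F)

/-- The element `a(θ)` of `F[X]/(f)` is a value of `x - θ w` at the point `P`: it is equal to `x - θ w`
in all components in which `x - θ w` does not vanish, and `lc(f) * N(a(θ))` is a square (as for all
other points).  If `x - θ w` vanishes in one component (which is the case at a branch point), this
component of `a(θ)` is determined up to squares by this condition. -/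
def IsValue {f : ℚ[X]} {m : ℕ} (P : Point f m F) (a : F[X]) : Prop :=
  IsCoprime (polOver f F) a ∧
    polOver f F ∣ (C P.x - C P.w * X) * (a - (C P.x - C P.w * X)) ∧
    IsSquare ((f.leadingCoeff : F) * Algebra.norm F (AdjoinRoot.mk (polOver f F) a))

open Classical in
/-- The local invariant of `A_ε` at the point `P`. -/
noncomputable def inv {f : ℚ[X]} {m : ℕ} (P : Point f m F) (ε : F[X]) : ℤˣ :=
  if h : ∃ a, IsValue P a then corestriction (polOver f F) (Classical.choose h) ε else 1

end local_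

/-- `ε(θ)` is an invertible element of `L = ℚ[X]/(f)`, and its norm is a square. -/
def SquareNorm (f ε : ℚ[X]) : Prop :=
  IsCoprime f ε ∧ IsSquare (Algebra.norm ℚ (AdjoinRoot.mk f ε))

/-- The places of `ℚ` (`none` is the real one) at which the local invariant of `A_ε` at the adelic
point is not trivial. -/
def ram {f : ℚ[X]} {m : ℕ} (P : AdelicPoint f m) (ε : ℚ[X]) : Set (Option Nat.Primes) :=
  {v | match v with
    | none => inv P.re (ε.map (Rat.castHom ℝ)) = -1
    | some p => inv (P.pa p) (ε.map (Rat.castHom ℚ_[(p : ℕ)])) = -1}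

/-- The adelic point is orthogonal to the classes `A_ε`, `N(ε)` a square: the number of the nontrivial
local invariants (which is finite) is even, their sum is zero. -/
def Orthogonal {f : ℚ[X]} {m : ℕ} (P : AdelicPoint f m) : Prop :=
  ∀ ε : ℚ[X], SquareNorm f ε → Even (ram P ε).ncard

/-- The point over `F` given by a rational point. -/
noncomputable def Point.base {f : ℚ[X]} {m : ℕ} (Q : Point f m ℚ) (F : Type) [Field F]
    [CharZero F] : Point f m F where
  x := Q.x
  w := Q.w
  y := Q.y
  ne := by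
    rcases Q.ne with h | h
    · left; exact_mod_cast h
    · right; exact_mod_cast h
  eq := by
    have h := congrArg (fun q : ℚ => (q : F)) Q.eq
    simp only [hom] at h ⊢
    push_cast at h
    exact h

/-- The adelic point given by a rational point. -/
noncomputable def Point.adelic {f : ℚ[X]} {m : ℕ} (Q : Point f m ℚ) : AdelicPoint f m where
  re := Q.base ℝ
  pa := fun p => Q.base ℚ_[(p : ℕ)]

/-- The local invariants of the classes `A_ε` at the points over `F` are well defined: values exist,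
and all of them give the same invariant. -/
def WellDefined (f : ℚ[X]) (m : ℕ) (F : Type) [Field F] [CharZero F] : Prop :=
  ∀ P : Point f m F, (∃ a, IsValue P a) ∧ ∀ a, IsValue P a → ∀ ε : ℚ[X], SquareNorm f ε →
    inv P (ε.map (Rat.castHom F)) = corestriction (polOver f F) a (ε.map (Rat.castHom F))

/-- The polynomial `g` over the field `K` takes at some point of `K` a value which is a nonzero `m`-th
power: the curve `y ^ m = g(x)` has a point over `K` with finite `x` and `y ≠ 0`. -/
def HasPoint {K : Type} [Field K] (m : ℕ) (g : K[X]) : Prop :=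
  ∃ x y : K, y ≠ 0 ∧ y ^ m = g.eval x

section transfer

open Pool.Agent.Q51.EB Pool.Agent.Helper98.BM

/-- the polynomial `f ∈ ℚ[X]` is `r² D` times the polynomial `h ∈ ℤ[X]` -/
structure Tr (f : ℚ[X]) (h : ℤ[X]) (D : ℤ) (r : ℚ) : Prop where
  eq : f = C (r ^ 2 * D) * h.map (Int.castRingHom ℚ)
  r0 : r ≠ 0
  D0 : D ≠ 0

variable {f : ℚ[X]} {h : ℤ[X]} {D : ℤ} {r : ℚ}

lemma Tr.c0 (T : Tr f h D r) : (r ^ 2 * D : ℚ) ≠ 0 :=
  mul_ne_zero (pow_ne_zero 2 T.r0) (by exact_mod_cast T.D0)

lemma Tr.deg (T : Tr f h D r) : f.natDegree = h.natDegree := by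
  rw [T.eq, natDegree_C_mul T.c0]
  exact natDegree_map_eq_of_injective (Int.castRingHom ℚ).injective_int h

lemma Tr.coeff (T : Tr f h D r) (i : ℕ) : f.coeff i = r ^ 2 * D * h.coeff i := by
  rw [T.eq, coeff_C_mul, coeff_map]
  rfl

lemma Tr.irr (T : Tr f h D r) (hf : Irreducible f) : Irreducible (h.map (Int.castRingHom ℚ)) := by
  rw [T.eq] at hf
  exact (irreducible_isUnit_mul (isUnit_C.2 (IsUnit.mk0 _ T.c0))).1 hf

section

variable (F : Type) [Field F] [CharZero F]

lemma Tr.pol (T : Tr f h D r) : polOver f F = C ((r ^ 2 * D : ℚ) : F) * up h F := by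
  ext i
  rw [coeff_map, coeff_C_mul, coeff_map, T.coeff]
  simp

lemma Tr.cF (T : Tr f h D r) : ((r ^ 2 * D : ℚ) : F) ≠ 0 := by
  exact_mod_cast T.c0

end

section

variable {F : Type} [Field F] [CharZero F]

lemma Tr.hom (T : Tr f h D r) (x w : F) :
    hom f x w = ((r ^ 2 * D : ℚ) : F) * Pool.Agent.Q51.EL.hom h x w := by
  rw [AdelicDensity.hom, Pool.Agent.Q51.EL.hom, Finset.mul_sum, T.deg]
  refine Finset.sum_congr rfl fun i _ => ?_
  rw [T.coeff]
  push_cast
  ring

lemma Tr.pt (T : Tr f h D r) {m : ℕ} (hm : Even m) (P : Point f m F) :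
    (D : F) * (P.y ^ (m / 2) / ((r : F) * D)) ^ 2 = Pool.Agent.Q51.EL.hom h P.x P.w := by
  have h1 : (P.y ^ (m / 2)) ^ 2 = ((r ^ 2 * D : ℚ) : F) * Pool.Agent.Q51.EL.hom h P.x P.w := by
    rw [← pow_mul, Nat.div_mul_cancel hm.two_dvd, P.eq, T.hom]
  have hr : (r : F) ≠ 0 := by exact_mod_cast T.r0
  have hD : (D : F) ≠ 0 := by exact_mod_cast T.D0
  rw [div_pow, h1]
  push_cast
  field_simp

lemma Tr.cop (T : Tr f h D r) (a : F[X]) : IsCoprime (polOver f F) a ↔ IsCoprime (up h F) a := by
  rw [T.pol F]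
  exact isCoprime_mul_unit_left_left (isUnit_C.2 (IsUnit.mk0 _ (T.cF F))) _ _

lemma Tr.val (T : Tr f h D r) {m : ℕ} (P : Point f m F) (a : F[X]) :
    IsValue P a ↔ IsVal h D P.x P.w a := by
  have hr : (r : F) ≠ 0 := by exact_mod_cast T.r0
  have h1 : ∀ b : F[X], polOver f F ∣ b ↔ up h F ∣ b := by
    intro b
    rw [T.pol F]
    exact (isUnit_C.2 (IsUnit.mk0 _ (T.cF F))).mul_left_dvd
  have h2 : Algebra.norm F (AdjoinRoot.mk (polOver f F) a) =
      Algebra.norm F (AdjoinRoot.mk (up h F) a) := by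
    rw [T.pol F]
    exact norm_mul' (T.cF F) _ _
  have h3 : (f.leadingCoeff : F) = (r : F) ^ 2 * ((D * h.leadingCoeff : ℤ) : F) := by
    have : f.leadingCoeff = r ^ 2 * D * h.leadingCoeff := by
      rw [leadingCoeff, T.coeff, T.deg]
      rfl
    rw [this]
    push_cast
    ring
  unfold IsValue IsVal
  rw [T.cop, h1, h2, h3]
  refine and_congr_right fun _ => and_congr_right fun _ => ?_
  constructor
  · rintro ⟨z, hz⟩
    refine ⟨z / r, ?_⟩
    field_simp
    linear_combination hz
  · rintro ⟨z, hz⟩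
    refine ⟨z * r, ?_⟩
    rw [mul_assoc, hz]
    ring

lemma Tr.cor (T : Tr f h D r) (a b : F[X]) :
    corestriction (polOver f F) a b = cor (up h F) a b := by
  have h1 : corestriction (polOver f F) a b = Pool.Agent.Q51.EB.cor (polOver f F) a b := rfl
  rw [h1, T.pol F]
  exact cor_mul (T.cF F) _ _ _

end

lemma Tr.sqn (T : Tr f h D r) (ε : ℚ[X]) : SquareNorm f ε ↔ SqN h ε := by
  unfold SquareNorm SqN
  have h1 : IsCoprime f ε ↔ IsCoprime (up h ℚ) ε := by
    rw [T.eq]
    exact isCoprime_mul_unit_left_left (isUnit_C.2 (IsUnit.mk0 _ T.c0)) _ _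
  have h2 : Algebra.norm ℚ (AdjoinRoot.mk f ε) = Algebra.norm ℚ (AdjoinRoot.mk (up h ℚ) ε) := by
    rw [T.eq]
    exact norm_mul' T.c0 _ _
  rw [h1, h2]

/-- every polynomial is of this form -/
lemma exists_tr (f : ℚ[X]) (hf : f ≠ 0) :
    ∃ (h : ℤ[X]) (D : ℤ) (r : ℚ), Squarefree D ∧ Tr f h D r := by
  obtain ⟨b, hb, hbf⟩ := IsLocalization.integerNormalization_spec (nonZeroDivisors ℤ) f
  have hb0 : b ≠ 0 := nonZeroDivisors.ne_zero hb
  have hbq : (b : ℚ) ≠ 0 := by exact_mod_cast hb0
  obtain ⟨D, s, hD, hs, hDs⟩ := Pool.Agent.Helper47.WA.squarefree_part (b : ℚ)⁻¹ (inv_ne_zero hbq)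
  refine ⟨IsLocalization.integerNormalization (nonZeroDivisors ℤ) f, D, s, hD, ?_, hs, hD.ne_zero⟩
  have h1 : (IsLocalization.integerNormalization (nonZeroDivisors ℤ) f).map (Int.castRingHom ℚ) =
      C (b : ℚ) * f := by
    have h2 : algebraMap ℤ ℚ = Int.castRingHom ℚ := rfl
    rw [← h2, hbf, zsmul_eq_mul]
    congr 1
  rw [h1, ← mul_assoc, ← C_mul, mul_comm (s ^ 2), ← hDs, inv_mul_cancel₀ hbq, C_1, one_mul]

lemma Tr.welldef (T : Tr f h D r) (hf : Irreducible f) (h2 : 2 ≤ f.natDegree) {m : ℕ} (hm : Even m)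
    {F : Type} [Field F] [CharZero F] [Infinite F] (hF : Hil F) : WellDefined f m F := by
  have hh := T.irr hf
  have h2' : 2 ≤ h.natDegree := by rwa [T.deg] at h2
  have hh0 : h ≠ 0 := by
    rintro rfl
    simp at h2'
  intro P
  obtain ⟨-, -, -, hsep, -⟩ := Pool.Agent.Q247.EB.bc h hh F 1
  have hex : ∃ a, IsValue P a := by
    obtain ⟨a, ha⟩ := isVal_exists hh0 hsep T.D0 P.x P.w _ P.ne (T.pt hm P)
    exact ⟨a, (T.val P a).2 ha⟩
  refine ⟨hex, fun a ha ε hε => ?_⟩
  unfold inv
  rw [dif_pos hex, T.cor, T.cor]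
  exact cor_isVal hh h2' hF T.D0 P.x P.w P.ne _ _ ((T.val P _).1 (Classical.choose_spec hex))
    ((T.val P _).1 ha) _ (cop_map ((T.sqn ε).1 hε).1)

/-- values of an adelic point, in the terms of the library -/
noncomputable def toVal (T : Tr f h D r) {m : ℕ} (hm : Even m) (P : AdelicPoint f m)
    (h1 : ∃ a, IsValue P.re a) (h2 : ∀ p : Nat.Primes, ∃ a, IsValue (P.pa p) a) : AVal h D where
  re := Classical.choose h1
  hre := ⟨P.re.x, P.re.w, _, P.re.ne, T.pt hm P.re, (T.val _ _).1 (Classical.choose_spec h1)⟩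
  pa := fun p => Classical.choose (h2 p)
  hpa := fun p => ⟨(P.pa p).x, (P.pa p).w, _, (P.pa p).ne, T.pt hm (P.pa p),
    (T.val _ _).1 (Classical.choose_spec (h2 p))⟩

lemma ram_toVal (T : Tr f h D r) {m : ℕ} (hm : Even m) (P : AdelicPoint f m)
    (h1 : ∃ a, IsValue P.re a) (h2 : ∀ p : Nat.Primes, ∃ a, IsValue (P.pa p) a) (ε : ℚ[X]) :
    ram P ε = ramA (toVal T hm P h1 h2) ε := by
  ext v
  match v with
  | none =>
    change inv P.re _ = -1 ↔ cor (up h ℝ) (Classical.choose h1) _ = -1
    unfold inv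
    rw [dif_pos h1, T.cor]
  | some p =>
    change inv (P.pa p) _ = -1 ↔ cor (up h ℚ_[(p : ℕ)]) (Classical.choose (h2 p)) _ = -1
    unfold inv
    rw [dif_pos (h2 p), T.cor]

end transfer

lemma wd (f : ℚ[X]) (hf : Irreducible f) (h2 : 2 ≤ f.natDegree) (m : ℕ) (hm : Even m) :
    WellDefined f m ℝ ∧ ∀ p : Nat.Primes, WellDefined f m ℚ_[(p : ℕ)] := by
  obtain ⟨h, D, r, -, T⟩ := exists_tr f hf.ne_zero
  exact ⟨T.welldef hf h2 hm Pool.Agent.Q247.EB.bil.1,
    fun p => T.welldef hf h2 hm (Pool.Agent.Q247.EB.bil.2 p)⟩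

open Pool.Agent.Q51.EB in
lemma fin (f : ℚ[X]) (hf : Irreducible f) (h2 : 2 ≤ f.natDegree) (hev : Even f.natDegree) (m : ℕ)
    (hm : Even m) (P : AdelicPoint f m) (ε : ℚ[X]) (hε : SquareNorm f ε) : (ram P ε).Finite := by
  obtain ⟨h, D, r, hD, T⟩ := exists_tr f hf.ne_zero
  have hw := wd f hf h2 m hm
  rw [ram_toVal T hm P (hw.1 P.re).1 (fun p => (hw.2 p (P.pa p)).1)]
  exact fin_ramA h (T.irr hf) (by rwa [T.deg] at hev) (by rwa [T.deg] at h2) D hD _ ε
    ((T.sqn ε).1 hε)

open Pool.Agent.Q51.EB in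
lemma rat (f : ℚ[X]) (hf : Irreducible f) (h2 : 2 ≤ f.natDegree) (m : ℕ) (hm : Even m)
    (Q : Point f m ℚ) : Orthogonal Q.adelic := by
  obtain ⟨h, D, r, hD, T⟩ := exists_tr f hf.ne_zero
  intro ε hε
  have hw := wd f hf h2 m hm
  set a : ℚ[X] := C Q.x - C Q.w * X with ha
  have hh0 : h ≠ 0 := by
    rintro rfl
    rw [T.deg] at h2
    simp at h2
  have ha0 : a ≠ 0 := by
    intro h
    have h3 := congrArg (fun q : ℚ[X] => q.coeff 0) h
    have h4 := congrArg (fun q : ℚ[X] => q.coeff 1) h
    simp only [ha, coeff_sub, coeff_C_zero, coeff_C_mul, coeff_X_zero, mul_zero, sub_zero,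
      coeff_zero] at h3
    simp only [ha, coeff_sub, coeff_C_succ, coeff_C_mul, coeff_X_one, mul_one, zero_sub,
      coeff_zero, neg_eq_zero] at h4
    rcases Q.ne with h5 | h5
    · exact h5 h3
    · exact h5 h4
  have hcop : IsCoprime (up h ℚ) a := by
    rw [(T.irr hf).coprime_iff_not_dvd]
    intro hd
    have h3 := natDegree_le_of_dvd hd ha0
    have h4 : a.natDegree ≤ 1 := by
      rw [ha]
      refine (natDegree_sub_le _ _).trans (max_le ?_ ?_)
      · rw [natDegree_C]
        exact Nat.zero_le _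
      · exact (natDegree_C_mul_le Q.w X).trans natDegree_X_le
    have h5 : (up h ℚ).natDegree = h.natDegree := Pool.Agent.Q58.EB.up_deg h
    rw [h5, ← T.deg] at h3
    omega
  have hval : ∀ (F : Type) [Field F] [CharZero F],
      IsValue (Q.base F) (a.map (Rat.castHom F)) := by
    intro F _ _
    rw [T.val]
    have e1 : a.map (Rat.castHom F) = C (Q.x : F) - C (Q.w : F) * X := by
      rw [ha]
      simp
    have hb := Pool.Agent.Q247.EB.bc h (T.irr hf) F a
    refine ⟨hb.2.2.1 hcop, ?_, ?_⟩
    · change up h F ∣ (C (Q.x : F) - C (Q.w : F) * X) * (a.map (Rat.castHom F) -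
          (C (Q.x : F) - C (Q.w : F) * X))
      rw [e1, sub_self, mul_zero]
      exact dvd_zero _
    · have hb1 : Algebra.norm F (AdjoinRoot.mk (up h F) (a.map (Rat.castHom F))) =
          ((Algebra.norm ℚ (AdjoinRoot.mk (up h ℚ) a) : ℚ) : F) := hb.1
      rw [hb1]
      have h4 := Pool.Agent.Q58.EB.norm_lin (F := ℚ) hh0 Q.x Q.w
      have hQ := T.pt hm Q
      refine ⟨((D * (Q.y ^ (m / 2) / (r * D)) : ℚ) : F), ?_⟩
      have h5 : ((D * h.leadingCoeff : ℤ) : ℚ) *
          Algebra.norm ℚ (AdjoinRoot.mk (up h ℚ) a) =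
            (D * (Q.y ^ (m / 2) / (r * D))) * (D * (Q.y ^ (m / 2) / (r * D))) := by
        push_cast
        rw [mul_assoc, ha]
        have h4' : (h.leadingCoeff : ℚ) * Algebra.norm ℚ (AdjoinRoot.mk (up h ℚ)
          (C Q.x - C Q.w * X)) = Pool.Agent.Q51.EL.hom h Q.x Q.w := h4
        rw [h4', ← hQ]
        simp only [Rat.cast_id]
        ring
      have h6 := congrArg (fun q : ℚ => (q : F)) h5
      push_cast at h6 ⊢
      exact h6
  have hram : ram Q.adelic ε = ramG h a ε := by
    ext v
    match v with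
    | none =>
      change inv (Q.base ℝ) (ε.map (Rat.castHom ℝ)) = -1 ↔
        cor (up h ℝ) (a.map (Rat.castHom ℝ)) (ε.map (Rat.castHom ℝ)) = -1
      rw [(hw.1 (Q.base ℝ)).2 _ (hval ℝ) ε hε, T.cor]
    | some p =>
      change inv (Q.base ℚ_[(p : ℕ)]) (ε.map (Rat.castHom ℚ_[(p : ℕ)])) = -1 ↔
        cor (up h ℚ_[(p : ℕ)]) (a.map (Rat.castHom ℚ_[(p : ℕ)]))
          (ε.map (Rat.castHom ℚ_[(p : ℕ)])) = -1
      rw [(hw.2 p (Q.base ℚ_[(p : ℕ)])).2 _ (hval ℚ_[(p : ℕ)]) ε hε, T.cor]
  rw [hram]
  exact (t_pfc h (T.irr hf) a ε hcop ((T.sqn ε).1 hε).1).2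

/-- **Everywhere locally soluble curves with empty Brauer-Manin set are adelically dense.**

Part 1, the classes `A_ε`: for an even number `m ≥ 2` and an irreducible polynomial `f` of even degree
`≥ 2` divisible by `m` the local invariants of the classes `A_ε` at the local points of `y ^ m = f(x)` are
well defined, almost all of them are trivial, and all rational points are orthogonal to the classes.

Part 2: let `m ≥ 2` be even, `m ∣ n`, `n ≥ 6`, let `S` be a finite set of primes, and let `g₀ ∈ ℝ[x]` and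
`g_p ∈ ℚ_p[x]`, `p ∈ S`, be polynomials of degree at most `n` such that the curves `y ^ m = g₀(x)`,
`y ^ m = g_p(x)` have points with `y ≠ 0` over `ℝ` and `ℚ_p`.  Then for every `ε > 0` there is an irreducible
`f ∈ ℚ[x]` of degree `n`, with all coefficients at distance less than `ε` from those of `g₀` and
`g_p`, `p ∈ S`, such that the curve `C : y ^ m = f(x)` has adelic points, but none of them is orthogonal
to all classes `A_ε`: the Brauer-Manin set of `C` is empty. -/
theorem result :
    (∀ (f : ℚ[X]) (m : ℕ), Irreducible f → Even m → 0 < m → m ∣ f.natDegree →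
      (WellDefined f m ℝ ∧ ∀ p : Nat.Primes, WellDefined f m ℚ_[(p : ℕ)]) ∧
      (∀ (P : AdelicPoint f m) (ε : ℚ[X]), SquareNorm f ε → (ram P ε).Finite) ∧
      ∀ Q : Point f m ℚ, Orthogonal Q.adelic) ∧
    (∀ (n m : ℕ), 6 ≤ n → Even m → 0 < m → m ∣ n → ∀ (S : Finset ℕ) (g₀ : ℝ[X])
      (g : ∀ (p : ℕ) [Fact p.Prime], ℚ_[p][X]), g₀.natDegree ≤ n →
      (∀ (p : ℕ) [Fact p.Prime], p ∈ S → (g p).natDegree ≤ n) → HasPoint m g₀ →
      (∀ (p : ℕ) [Fact p.Prime], p ∈ S → HasPoint m (g p)) → ∀ ε : ℝ, 0 < ε →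
      ∃ f : ℚ[X], Irreducible f ∧ f.natDegree = n ∧
        (∀ i, ‖(f.coeff i : ℝ) - g₀.coeff i‖ < ε) ∧
        (∀ (p : ℕ) [Fact p.Prime], p ∈ S → ∀ i, ‖(f.coeff i : ℚ_[p]) - (g p).coeff i‖ < ε) ∧
        Nonempty (AdelicPoint f m) ∧ ∀ P : AdelicPoint f m, ¬ Orthogonal P) := by
  classical
  refine ⟨?_, ?_⟩
  · intro f m hf hm hm0 hmn
    have hd0 : 0 < f.natDegree := Irreducible.natDegree_pos hf
    have h2 : 2 ≤ f.natDegree := by
      have h1 : m ≤ f.natDegree := Nat.le_of_dvd hd0 hmn
      obtain ⟨k, hk⟩ := hm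
      omega
    have hev : Even f.natDegree := even_iff_two_dvd.2 (hm.two_dvd.trans hmn)
    exact ⟨wd f hf h2 m hm, fun P ε hε => fin f hf h2 hev m hm P ε hε, fun Q => rat f hf h2 m hm Q⟩
  · intro n m h6 hm hm0 hmn S g₀ g hd₀ hd h₀ h ε hε
    have hn : Even n := even_iff_two_dvd.2 (hm.two_dvd.trans hmn)
    obtain ⟨f, D, E, c, l, r, hirr, hdeg, hD, hE, hl, hr, hc1, hc2, hels, hbad, hc0, hcp⟩ :=
      Pool.Agent.Helper98.BM.core n m (by omega) hm0 hm Pool.Agent.Helper98.BM.HasBM
        (fun f hf hdeg => Pool.Agent.Helper98.BM.bm_bound f hf (by rw [hdeg]; exact hn)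
          (by rw [hdeg]; exact h6)) (S.filter Nat.Prime)
        (fun p hp => (Finset.mem_filter.1 hp).2) g₀ g hd₀
        (fun p _ hp => hd p (Finset.mem_filter.1 hp).1) h₀
        (fun p _ hp => h p (Finset.mem_filter.1 hp).1) ε hε
    obtain ⟨k, hk⟩ : ∃ k : ℚ[X], k = C c * f.map (Int.castRingHom ℚ) := ⟨_, rfl⟩
    have T : Tr k f D r := ⟨by rw [hk, hc2], hr, hD.ne_zero⟩
    have hc : c ≠ 0 := by rw [hc2]; exact T.c0
    have hcoef : ∀ i, k.coeff i = c * f.coeff i := by
      intro i
      rw [hk, coeff_C_mul, coeff_map]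
      rfl
    have hkdeg : k.natDegree = n := by rw [T.deg, hdeg]
    have hkirr : Irreducible k := by
      rw [hk]
      exact (irreducible_isUnit_mul (isUnit_C.2 (IsUnit.mk0 _ hc))).2 hirr
    have hpt : ∀ (K : Type) [Field K] [CharZero K], Pool.Agent.Q51.EB.CurvePtM f m E K →
        Nonempty (Point k m K) := by
      rintro K _ _ ⟨x, w, y, hxw, hy⟩
      refine ⟨⟨x, w, (l : K) * y, hxw, ?_⟩⟩
      have hEK : (E : K) ≠ 0 := by exact_mod_cast hE
      rw [T.hom, ← hc2, hc1, ← hy, mul_pow]
      push_cast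
      field_simp
    refine ⟨k, hkirr, hkdeg, ?_, ?_, ?_, ?_⟩
    · intro i
      by_cases hi : i ≤ n
      · rw [hcoef, Real.norm_eq_abs]
        exact hc0 i hi
      · rw [coeff_eq_zero_of_natDegree_lt (by omega), coeff_eq_zero_of_natDegree_lt (by omega)]
        simpa using hε
    · intro p hp hpS i
      by_cases hi : i ≤ n
      · rw [hcoef]
        exact hcp p (Finset.mem_filter.2 ⟨hpS, hp.out⟩) i hi
      · have hdp := hd p hpS
        rw [coeff_eq_zero_of_natDegree_lt (by omega), coeff_eq_zero_of_natDegree_lt (by omega)]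
        simpa using hε
    · obtain ⟨h1⟩ := hpt ℝ hels.1
      have h2 : ∀ p : Nat.Primes, Nonempty (Point k m ℚ_[(p : ℕ)]) := fun p =>
        hpt ℚ_[(p : ℕ)] (hels.2 (p : ℕ))
      exact ⟨⟨h1, fun p => (h2 p).some⟩⟩
    · intro P hP
      have h2 : 2 ≤ k.natDegree := by omega
      have hw := wd k hkirr h2 m hm
      refine hbad ⟨toVal T hm P (hw.1 P.re).1 (fun p => (hw.2 p (P.pa p)).1), fun e he => ?_⟩
      rw [← ram_toVal]
      exact ⟨fin k hkirr h2 (by rw [hkdeg]; exact hn) m hm P e ((T.sqn e).2 he),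
        hP e ((T.sqn e).2 he)⟩

end Pool.Agent.Results.MP_308fa9_nt.AdelicDensity
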