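import Mathlib
import Pool.Agent.Helper47.GX.Fm

/-!
# Every everywhere locally soluble curve has everywhere locally soluble double covers whose Brauer-Manin set is empty over all number fields of odd degree

Let `X` be a smooth projective geometrically connected curve over `ℚ`, of any genus, and let `x` be a
nonconstant function on `X`.  There is a function `y`, integral over `ℤ[x]`, with `ℚ(X) = ℚ(x, y)`; so `X`
is the smooth projective model of a plane curve `G(x, y) = 0`, where `G ∈ ℤ[x][y]` is monic in `y` and
irreducible over the algebraic closure of `ℚ`.  Suppose that `X` has points over `ℝ` and over all `ℚ_p`.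
We show: for every finite set `S` of primes, all points `P_p ∈ X(ℚ_p)`, `p ∈ S`, of the affine model with
`∂G/∂y ≠ 0`, and every `N`, there is a squarefree polynomial `f ∈ ℤ[x]` of even degree at least `N` such
that the curves

  `C : w² = f(x)`   and   `Y : w² = f(x), G(x, y) = 0`,

(`Y` is a double cover of `X`, and a cover of the hyperelliptic curve `C`) have the following properties.

* `Y` is geometrically irreducible, and has points over `ℝ` and all `ℚ_p`; all real points of `X` and the
  given points `P_p`, `p ∈ S`, lift to `Y`.
* There is a class `α` of order two in the Brauer group of `C`, such that for every number field `L` of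
  odd degree and every adelic point `(P_v)` of `C` over `L` the sum of the local invariants of the
  `α(P_v)` is different from zero (namely `1/2`) in `ℚ/ℤ`.

So the Brauer-Manin set of `C` over `L` is empty, and with it the one of `Y` and of every curve over `L`
that maps to `C`, and the conjecture of Stoll is true for these curves.  The class `α` is the class of
the quaternion algebra `(g(x), r)`, where `r` is a prime number and `f = r g h`.

Proof.  `f = r g h`, `g = (x-a)^(2m) + b^(2m)`, `h = (x-a)^(2m) + 2 b^m (x-a)^m + 3 b^(2m)`, where `m` is large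
compared with the degree of the discriminant of `G`, `r` is a prime number, `r ≡ 1` modulo `48 m` and
modulo all primes of a finite set `T`, such that `2` is a square but no fourth power modulo `r`, `b` is a
high power of the product of the primes in `T`, and `a` is chosen such that the first factor has a zero
modulo `r` at the `x`-coordinate of a point of `X` modulo `r`.  The local solubility of `Y` follows from
the bound of Weil (for plane curves, library) and the theorem of Bertini-Noether.  Let `L` be a number
field and `v` a place of `L`.  If `v` is not above `r`, or if the local degree `[L_v : ℚ_r]` is even, then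
the invariant of `α(P_v)` is zero for all `P_v ∈ C(L_v)`: `r` is a square in `ℝ` and in `ℚ_2`, and otherwise
the values of `g` and `h` are not both divisible by `v`.  If `v` is above `r`, with ramification index `e`
and residue degree `f`, `e` odd, then one of the factors vanishes at the reduction of `P_v` (`P_v` is
reduced to a zero of `g h`, as the value of `r` at `v` is odd), and then the other one, which is
`2 (1 + i)` times a square, or `∓2 √-2` times a square, is a square in the residue field if and only if
`f` is even.  So the invariant of `α(P_v)` is `1/2` if and only if `v` is above `r` and `[L_v : ℚ_r]` is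
odd, and the number of these places is odd if `[L : ℚ]` is odd.
-/

set_option autoImplicit false

open Polynomial NumberField IsDedekindDomain

namespace Pool.Agent.Results.MP_308fa9_nt.DoubleCoversOfAllCurves

universe u v

/-! ### The curve `X` and its double cover `Y` -/

/-- `(x, y)` is a point over `K` of the plane curve `G(x, y) = 0` with `∂G/∂y ≠ 0`, that is, a point of
the affine curve at which the function `x` is unramified. -/
def Pt (G : ℤ[X][X]) {K : Type} [Field K] (x y : K) : Prop :=
  aevalAeval x y G = 0 ∧ aevalAeval x y (derivative G) ≠ 0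

/-- The curve `X` with the equation `G(x, y) = 0` is everywhere locally soluble.  (If the smooth
projective model of `G(x, y) = 0` has a point over `K = ℝ` or `K = ℚ_p`, then it has infinitely many, and
all but finitely many of them belong to points `(x, y) ∈ K²` with `∂G/∂y ≠ 0`.  Conversely all such
points are points of the smooth projective model.) -/
def LocallySoluble (G : ℤ[X][X]) : Prop :=
  (∃ x y : ℝ, Pt G x y) ∧ ∀ (p : ℕ) [Fact p.Prime], ∃ x y : ℚ_[p], Pt G x y

/-- The points over `x` lift to the double cover `w² = f(x)`. -/
def Lifts (f : ℤ[X]) {K : Type} [Field K] (x : K) : Prop := ∃ w : K, w ≠ 0 ∧ w ^ 2 = aeval x f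

/-- The double cover `Y : w² = f(x), G(x, y) = 0` is everywhere locally soluble. -/
def CoverLocallySoluble (G : ℤ[X][X]) (f : ℤ[X]) : Prop :=
  (∃ x y : ℝ, Pt G x y ∧ Lifts f x) ∧ ∀ (p : ℕ) [Fact p.Prime], ∃ x y : ℚ_[p], Pt G x y ∧ Lifts f x

/-- The double cover `Y : w² = f(x), G(x, y) = 0` of `X : G(x, y) = 0` is geometrically irreducible:
`f(x)` is not a square in the function field `K(x, y)` of `X`, `K` an algebraic closure of `ℚ`. -/
def CoverGeometricallyIrreducible (G : ℤ[X][X]) (f : ℤ[X]) : Prop :=
  ∀ (E : Type u) [Field E] [Algebra (AlgebraicClosure ℚ) E] (x y : E),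
    Transcendental (AlgebraicClosure ℚ) x → aevalAeval x y G = 0 →
    ∀ w ∈ IntermediateField.adjoin (AlgebraicClosure ℚ) {x, y}, w ^ 2 ≠ aeval x f

/-! ### The adelic points of `C` and their invariants -/

/-- The binary form `∑ a_i x^i z^(n-i)` of degree `n = deg f` belonging to `f = ∑ a_i x^i`. -/
def form (f : ℤ[X]) {K : Type} [Field K] (x z : K) : K :=
  ∑ i ∈ Finset.range (f.natDegree + 1), (f.coeff i : K) * x ^ i * z ^ (f.natDegree - i)

/-- A point over `K` of the smooth projective curve `C : w² = f(x)`, `f` squarefree of even degree `n`: a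
solution `(x, z, w)` of `w² = f(x, z)` with `(x, z) ≠ (0, 0)` (up to `(λ x, λ z, λ^(n/2) w)`). -/
structure CurvePoint (f : ℤ[X]) (K : Type) [Field K] where
  /-- the coordinate `x` -/
  x : K
  /-- the coordinate `z` -/
  z : K
  /-- the coordinate `w` -/
  w : K
  ne_zero : x ≠ 0 ∨ z ≠ 0
  equation : w ^ 2 = form f x z

/-- An adelic point of `C` over the number field `L`: a point over `L_v` for every place `v`. -/
structure AdelicPoint (f : ℤ[X]) (L : Type) [Field L] [NumberField L] where
  /-- the points at the finite places -/
  finite : ∀ v : HeightOneSpectrum (𝓞 L), CurvePoint f (v.adicCompletion L)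
  /-- the points at the infinite places -/
  infinite : ∀ v : InfinitePlace L, CurvePoint f v.Completion

/-- The quaternion algebra `(c, r)` over `K` is split (`c, r ≠ 0`): `c` is a norm of `K(√r)`. -/
def Splits {K : Type} [Field K] (c r : K) : Prop := ∃ s t : K, c = s ^ 2 - r * t ^ 2

open Classical in
/-- The local invariant (`0` or `1/2`) of the quaternion algebra `(c, r)` over a local field `K`. -/
noncomputable def inv {K : Type} [Field K] (c r : K) : ℚ := if Splits c r then 0 else 1 / 2

open Classical in
/-- Let `f = r g h`, where `g` and `h` are coprime, of the same even degree.  On `C : w² = r g(x) h(x)` we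
have `α := (g(x), r) = (-h(x), r)`, since `g(x) (-h(x)) = -r (w/r)²` is a norm of the extension with
`√r`.  The value of `α` at the point `P = (x : z : w)` is the quaternion algebra `(c, r)`, with
`c = g(x, z)` if this is not zero, and `c = -h(x, z)` if `g(x, z) = 0`.  This function gives `c`. -/
noncomputable def value (g h : ℤ[X]) {f : ℤ[X]} {K : Type} [Field K] (P : CurvePoint f K) : K :=
  if form g P.x P.z = 0 then - form h P.x P.z else form g P.x P.z

/-- The sum of the local invariants of the values of `α = (g(x), r)` at an adelic point. -/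
noncomputable def invariantSum (g h : ℤ[X]) (r : ℕ) {f : ℤ[X]} {L : Type} [Field L] [NumberField L]
    (P : AdelicPoint f L) : ℚ :=
  (∑ᶠ v, inv (value g h (P.finite v)) (r : v.adicCompletion L)) +
    ∑ v, inv (value g h (P.infinite v)) (r : v.Completion)

/-- The quaternion algebra `(g(x), r)` over the function field of `C : w² = f(x)` is unramified, that is,
belongs to `Br(C)`, for all `r`: the values of `g(x)` at the valuations over `ℚ` of the function field
`F` of `C` (or of any field `F` that contains a generic point `(x, w)` of `C`) are even. -/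
def Unramified (f g : ℤ[X]) : Prop :=
  ∀ (F : Type v) [Field F] [Algebra ℚ F] (x w : F), Transcendental ℚ x → w ^ 2 = aeval x f →
    ∀ O : ValuationSubring F, (∀ c : ℚ, algebraMap ℚ F c ∈ O) →
      ∃ t : F, O.valuation (aeval x g) = O.valuation t ^ 2

/-- There is a quaternion algebra `α = (g(x), r)` in the Brauer group of `C : w² = f(x)` such that for
every number field `L` of odd degree and every adelic point of `C` over `L`, only finitely many of the
local invariants are different from zero, and their sum is not zero in `ℚ/ℤ`.  So the Brauer-Manin set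
of `C` over `L` is empty, and also the one of every curve over `L` with a nonconstant morphism to `C`
(its adelic points map to adelic points of `C`, and `α` is pulled back to its Brauer group). -/
def NoBrauerManinPointInOddDegree (f : ℤ[X]) : Prop :=
  ∃ (g h : ℤ[X]) (r : ℕ), r ≠ 0 ∧ f = C (r : ℤ) * (g * h) ∧ g.natDegree = h.natDegree ∧
    Even g.natDegree ∧ Unramified.{v} f g ∧
    ∀ (L : Type) [Field L] [NumberField L], Odd (Module.finrank ℚ L) → ∀ P : AdelicPoint f L,
      {v | inv (value g h (P.finite v)) (r : v.adicCompletion L) ≠ 0}.Finite ∧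
      ∀ n : ℤ, invariantSum g h r P ≠ n

/-- **Every everywhere locally soluble curve over `ℚ` has everywhere locally soluble double covers
whose Brauer-Manin set is empty over all number fields of odd degree.**  Let `X` be the curve with the
equation `G(x, y) = 0`, `G ∈ ℤ[x][y]` monic in `y` and irreducible over the algebraic closure of `ℚ`, and
let `X` be everywhere locally soluble.  Let `S` be a finite set of primes and `P_p`, `p ∈ S`, a point of
`X` over `ℚ_p`.  For every `N` there is a squarefree polynomial `f` of even degree `≥ N` such that the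
double cover `Y : w² = f(x), G(x, y) = 0` of `X` is geometrically irreducible and everywhere locally
soluble, such that all real points of `X` and the points `P_p` lift to `Y`, and such that for every
number field `L` of odd degree the Brauer-Manin sets over `L` of the curve `C : w² = f(x)`, of `Y`, and of
all curves over `L` that dominate `C`, are empty. -/
theorem result (G : ℤ[X][X]) (hG : G.Monic)
    (hirr : Irreducible (G.map (mapRingHom (algebraMap ℤ (AlgebraicClosure ℚ)))))
    (hX : LocallySoluble G) (S : Finset ℕ) (P : ∀ (p : ℕ) [Fact p.Prime], ℚ_[p] × ℚ_[p])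
    (hP : ∀ (p : ℕ) [Fact p.Prime], p ∈ S → Pt G (P p).1 (P p).2) (N : ℕ) :
    ∃ f : ℤ[X], N ≤ f.natDegree ∧ Even f.natDegree ∧ Squarefree (f.map (Int.castRingHom ℚ)) ∧
      CoverGeometricallyIrreducible.{u} G f ∧ CoverLocallySoluble G f ∧
      (∀ x y : ℝ, Pt G x y → Lifts f x) ∧
      (∀ (p : ℕ) [Fact p.Prime], p ∈ S → Lifts f (P p).1) ∧
      NoBrauerManinPointInOddDegree.{v} f := by
  classical
  have hn : 0 < G.natDegree := by
    rcases Nat.eq_zero_or_pos G.natDegree with h | h
    · refine absurd ?_ hirr.not_isUnit
      rw [eq_one_of_monic_natDegree_zero hG h, Polynomial.map_one]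
      exact isUnit_one
    · exact h
  obtain ⟨A, B, D, hD, hAB⟩ := Pool.Agent.R410.LW.bezout (ι := algebraMap ℤ (AlgebraicClosure ℚ))
    (FaithfulSMul.algebraMap_injective ℤ (AlgebraicClosure ℚ)) hG hirr
  have hpts : ∀ (p : ℕ) [Fact p.Prime], ∃ z : ℚ_[p] × ℚ_[p], Pt G z.1 z.2 ∧ (p ∈ S → z = P p) := by
    intro p _
    by_cases hpS : p ∈ S
    · exact ⟨P p, hP p hpS, fun _ => rfl⟩
    · obtain ⟨x, y, hxy⟩ := hX.2 p
      exact ⟨(x, y), hxy, fun h => absurd h hpS⟩
  choose z hz hzS using hpts
  obtain ⟨m, r, a, b, hm, hN, hr, h48, h2, hb, hloc, hS⟩ := Pool.Agent.Helper47.GX.main G hG hn hirr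
    (N + D.natDegree + 1) S (fun p _ => (z p).1) (fun p _ => (z p).2) (fun p _ => hz p)
  have hQ := Pool.Agent.Helper47.GX.ffin_good (Int.castRingHom ℚ) (m := m) (r := r) (a := a) (b := b)
    hm (by norm_num) (by norm_num) (by exact_mod_cast hm.ne') (by exact_mod_cast hr.ne_zero)
    (by
      rw [eq_intCast]
      exact_mod_cast hb)
  have hdeg : (Pool.Agent.Helper47.GX.ffin m r a b).natDegree = 4 * m := by
    rw [← hQ.2, natDegree_map_eq_of_injective (Int.castRingHom ℚ).injective_int]
  refine ⟨Pool.Agent.Helper47.GX.ffin m r a b, by rw [hdeg]; omega,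
    by rw [hdeg]; exact ⟨2 * m, by ring⟩, hQ.1.squarefree, ?_, ⟨?_, ?_⟩, ?_, ?_,
    ⟨Pool.Agent.Helper47.GX.P1 m a b, Pool.Agent.Helper47.GX.P2 m a b, r, hr.ne_zero, rfl, ?_, ?_, ?_,
      ?_⟩⟩
  · intro E _ _ x y hx hxy w hw hww
    refine Pool.Agent.Helper47.GX.geo hG hirr hD hAB ?_ (by rw [hdeg]; omega) hx hxy hw hww
    refine (Pool.Agent.Helper47.GX.ffin_good (algebraMap ℤ (AlgebraicClosure ℚ)) hm (by norm_num)
      (by norm_num) (by exact_mod_cast hm.ne') (by exact_mod_cast hr.ne_zero) ?_).1
    rw [eq_intCast]
    exact_mod_cast hb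
  · obtain ⟨x, y, hxy⟩ := hX.1
    have h1 := Pool.Agent.Helper47.GX.real_pos (m := m) hr.pos (a := a) hb x
    exact ⟨x, y, hxy, Real.sqrt _, (Real.sqrt_pos.2 h1).ne', Real.sq_sqrt h1.le⟩
  · intro p _
    obtain ⟨x, y, w, h1, h3, h4⟩ := hloc p
    exact ⟨x, y, h1, w, h3, h4⟩
  · intro x y _
    have h1 := Pool.Agent.Helper47.GX.real_pos (m := m) hr.pos (a := a) hb x
    exact ⟨Real.sqrt _, (Real.sqrt_pos.2 h1).ne', Real.sq_sqrt h1.le⟩
  · intro p _ hpS
    obtain ⟨w, h3, h4⟩ := hS p hpS
    refine ⟨w, h3, ?_⟩
    rw [h4, hzS p hpS]
  · rw [Pool.Agent.Helper47.GX.natDegree_P1' hm, Pool.Agent.Helper47.GX.natDegree_P2' hm]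
  · rw [Pool.Agent.Helper47.GX.natDegree_P1' hm]
    exact even_two_mul m
  · intro F _ _ x w _ hw O hO
    exact Pool.Agent.Helper47.GX.unr hm hr.ne_zero hb hw O hO
  · intro L _ _ hL Q
    have h16 : 16 ∣ r - 1 := (Dvd.intro (3 * m) (by ring)).trans h48
    -- the local invariants at the finite places
    have hfin : ∀ v : HeightOneSpectrum (𝓞 L),
        inv (value (Pool.Agent.Helper47.GX.P1 m a b) (Pool.Agent.Helper47.GX.P2 m a b) (Q.finite v))
          (r : v.adicCompletion L) =
          if v ∈ Pool.Agent.Helper47.GX.oddPlaces L r then 1 / 2 else 0 := by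
      intro v
      have hc0 : CharZero (v.adicCompletion L) := charZero_of_injective_algebraMap
        (algebraMap L (v.adicCompletion L)).injective
      have hr0 : (r : v.adicCompletion L) ≠ 0 := by exact_mod_cast hr.ne_zero
      have hb0 : (b : v.adicCompletion L) ≠ 0 := by exact_mod_cast hb
      have hval : value (Pool.Agent.Helper47.GX.P1 m a b) (Pool.Agent.Helper47.GX.P2 m a b)
          (Q.finite v) = Pool.Agent.Helper47.GX.val m ((Q.finite v).x - a * (Q.finite v).z)
            (b * (Q.finite v).z) := by
        unfold value Pool.Agent.Helper47.GX.val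
        rw [← Pool.Agent.Helper47.GX.form_P1 hm, ← Pool.Agent.Helper47.GX.form_P2 hm]
        rfl
      have heq : (r : v.adicCompletion L) * ((Q.finite v).w / r) ^ 2 =
          Pool.Agent.Helper47.GX.FF1 m ((Q.finite v).x - a * (Q.finite v).z) (b * (Q.finite v).z) *
          Pool.Agent.Helper47.GX.FF2 m ((Q.finite v).x - a * (Q.finite v).z) (b * (Q.finite v).z) := by
        have h1 : (Q.finite v).w ^ 2 = r *
            (Pool.Agent.Helper47.GX.FF1 m ((Q.finite v).x - a * (Q.finite v).z) (b * (Q.finite v).z) *
            Pool.Agent.Helper47.GX.FF2 m ((Q.finite v).x - a * (Q.finite v).z)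
              (b * (Q.finite v).z)) :=
          (Q.finite v).equation.trans (Pool.Agent.Helper47.GX.form_ffin hm hr.ne_zero a b _ _)
        rw [div_pow, h1]
        field_simp
      have hne : (Q.finite v).x - a * (Q.finite v).z ≠ 0 ∨ (b : v.adicCompletion L) * (Q.finite v).z ≠ 0 := by
        by_cases hz0 : (Q.finite v).z = 0
        · left
          rw [hz0, mul_zero, sub_zero]
          exact (Q.finite v).ne_zero.resolve_right (not_not.2 hz0)
        · right
          exact mul_ne_zero hb0 hz0
      have hloc := Pool.Agent.Helper47.GX.local_splits hr h16 h2 hm v hne heq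
      unfold inv
      rw [hval]
      by_cases hv : v ∈ Pool.Agent.Helper47.GX.oddPlaces L r
      · rw [if_pos hv, if_neg]
        exact hloc.2 hv
      · rw [if_neg hv, if_pos]
        exact not_not.1 (fun h => hv (hloc.1 h))
    have hinf : ∀ v : InfinitePlace L,
        inv (value (Pool.Agent.Helper47.GX.P1 m a b) (Pool.Agent.Helper47.GX.P2 m a b) (Q.infinite v))
          (r : v.Completion) = 0 := by
      intro v
      unfold inv
      rw [if_pos]
      exact Pool.Agent.Helper47.GX.inf_splits hr.pos v _
    obtain ⟨hodd1, hodd2⟩ := Pool.Agent.Helper47.GX.odd_count (L := L) hr hL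
    have hset : {v | inv (value (Pool.Agent.Helper47.GX.P1 m a b) (Pool.Agent.Helper47.GX.P2 m a b)
        (Q.finite v)) (r : v.adicCompletion L) ≠ 0} = Pool.Agent.Helper47.GX.oddPlaces L r := by
      ext v
      rw [Set.mem_ofPred_eq, hfin v]
      by_cases hv : v ∈ Pool.Agent.Helper47.GX.oddPlaces L r
      · rw [if_pos hv]
        simp [hv]
      · rw [if_neg hv]
        simp [hv]
    refine ⟨by rw [hset]; exact hodd1, ?_⟩
    intro n hsum
    have h3 : invariantSum (Pool.Agent.Helper47.GX.P1 m a b) (Pool.Agent.Helper47.GX.P2 m a b) r Q =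
        (Pool.Agent.Helper47.GX.oddPlaces L r).ncard * (1 / 2) := by
      unfold invariantSum
      rw [Finset.sum_eq_zero (fun v _ => hinf v), add_zero, finsum_congr hfin]
      rw [finsum_eq_sum_of_support_subset (s := hodd1.toFinset)]
      · rw [Finset.sum_congr rfl (g := fun _ => (1 / 2 : ℚ)) (fun v hv => by
          rw [if_pos (hodd1.mem_toFinset.1 hv)]), Finset.sum_const, nsmul_eq_mul,
          Set.ncard_eq_toFinset_card _ hodd1]
      · intro v hv
        rw [Set.Finite.coe_toFinset]
        by_contra h
        exact hv (if_neg h)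
    rw [h3] at hsum
    obtain ⟨k, hk⟩ := hodd2
    rw [hk] at hsum
    have h4 : (2 * k + 1 : ℤ) = 2 * n := by
      have h5 : (((2 * k + 1 : ℤ)) : ℚ) = ((2 * n : ℤ) : ℚ) := by
        push_cast at hsum ⊢
        linarith
      exact_mod_cast h5
    omega

end Pool.Agent.Results.MP_308fa9_nt.DoubleCoversOfAllCurves
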